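import Mathlib

/-!
# MP_4d4a97_an

On every interval there are three integrable functions such that the smallest class containing
them and closed under rational combinations and composition contains all indefinite integrals
of its summable members.
-/

namespace Pool.Agent.Results.MP_4d4a97_an.MazurUlam

open MeasureTheory Set Filter Topology Cardinal
open scoped Pointwise

/-- The open interval `(a, b)` of real numbers, with extended real end points. -/
def I (a b : EReal) : Set ℝ := {x | a < (x : EReal) ∧ (x : EReal) < b}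

/-- The rational combination `P(g_1, …, g_m) / Q(g_1, …, g_m)` of partial functions, defined at
the points of `(a, b)` where all `g_j` are defined and `Q(g_1, …, g_m) ≠ 0`. -/
noncomputable def ratComb (a b : EReal) {m : ℕ} (P Q : MvPolynomial (Fin m) ℝ)
    (g : Fin m → (ℝ →. ℝ)) : ℝ →. ℝ := fun x =>
  ⟨x ∈ I a b ∧ ∃ H : ∀ j, (g j x).Dom, MvPolynomial.eval (fun j => (g j x).get (H j)) Q ≠ 0,
    fun h => MvPolynomial.eval (fun j => (g j x).get (h.2.choose j)) P /
      MvPolynomial.eval (fun j => (g j x).get (h.2.choose j)) Q⟩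

/-- The class `R(f_1, …, f_n)` on `(a, b)`: the smallest class of partial functions containing
the restrictions of the `f_i` to `(a, b)` and closed under rational combinations and
composition. -/
inductive InR {n : ℕ} (a b : EReal) (f : Fin n → ℝ → ℝ) : (ℝ →. ℝ) → Prop
  | gen (i : Fin n) : InR a b f (PFun.res (f i) (I a b))
  | rat {m : ℕ} (P Q : MvPolynomial (Fin m) ℝ) (g : Fin m → (ℝ →. ℝ))
      (hg : ∀ j, InR a b f (g j)) : InR a b f (ratComb a b P Q g)
  | comp (h k : ℝ →. ℝ) (hh : InR a b f h) (hk : InR a b f k) : InR a b f (h.comp k)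

open Classical in
/-- The total function which is `g` on its domain and `0` elsewhere. -/
noncomputable def total (g : ℝ →. ℝ) (x : ℝ) : ℝ := if h : (g x).Dom then (g x).get h else 0

/-- The indefinite integral `F(x) = ∫_α^x g(t) dt`. -/
noncomputable def indef (α : EReal) (g : ℝ →. ℝ) (x : ℝ) : ℝ :=
  ∫ t in {t : ℝ | α < (t : EReal) ∧ t < x}, total g t

/-! ### Coding -/

/-- interleaving two 0-1 sequences -/
def inter (u v : ℕ → Bool) (n : ℕ) : Bool := if n % 2 = 0 then u (n / 2) else v (n / 2)

theorem inter_injective {u v u' v' : ℕ → Bool} (h : inter u v = inter u' v') :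
    u = u' ∧ v = v' := by
  constructor
  · funext n
    have := congrFun h (2 * n)
    simpa [inter] using this
  · funext n
    have := congrFun h (2 * n + 1)
    simp only [inter] at this
    rw [if_neg (by omega), if_neg (by omega)] at this
    rwa [show (2 * n + 1) / 2 = n by omega] at this

/-- the Cantor function with ratio `1/4` -/
noncomputable def K (u : ℕ → Bool) : ℝ := cantorFunction (1 / 4) u

theorem K_injective : Function.Injective K :=
  cantorFunction_injective (by norm_num) (by norm_num)

theorem K_inter (u v : ℕ → Bool) :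
    K (inter u v) = K (inter u fun _ => false) + K (inter (fun _ => false) v) := by
  unfold K cantorFunction
  rw [← (summable_cantor_function _ (by norm_num) (by norm_num)).tsum_add
    (summable_cantor_function _ (by norm_num) (by norm_num))]
  congr 1
  funext n
  by_cases h : n % 2 = 0
  · simp [cantorFunctionAux, inter, h]
  · simp [cantorFunctionAux, inter, h]

theorem K_nonneg (u : ℕ → Bool) : 0 ≤ K u :=
  tsum_nonneg fun n => cantorFunctionAux_nonneg (by norm_num)

theorem K_le (u : ℕ → Bool) : K u ≤ 4 / 3 := by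
  have h1 : K u ≤ K fun _ => true := cantorFunction_le (by norm_num) (by norm_num) (by simp)
  have h2 : K (fun _ => true) = 4 / 3 := by
    have := cantorFunction_succ (c := 1 / 4) (fun _ => true) (by norm_num) (by norm_num)
    simp only [cond_true] at this
    change K (fun _ => true) = 1 + 1 / 4 * K (fun _ => true) at this
    linarith
  rw [h2] at h1
  exact h1

theorem volume_range_K : volume (range K) = 0 := by
  have hsub : range K ⊆ (1 / 4 : ℝ) • range K ∪ ((1 : ℝ) +ᵥ (1 / 4 : ℝ) • range K) := by
    rintro _ ⟨u, rfl⟩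
    have := cantorFunction_succ (c := 1 / 4) u (by norm_num) (by norm_num)
    change K u = (bif u 0 then 1 else 0) + 1 / 4 * K (fun n => u (n + 1)) at this
    rw [this]
    cases u 0
    · left
      rw [cond_false, zero_add]
      exact smul_mem_smul_set (mem_range_self _)
    · right
      rw [cond_true]
      exact vadd_mem_vadd_set (smul_mem_smul_set (mem_range_self _))
  have hfin : volume (range K) ≠ ⊤ := by
    have : range K ⊆ Icc 0 (4 / 3) := by
      rintro _ ⟨u, rfl⟩
      exact ⟨K_nonneg u, K_le u⟩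
    exact ((measure_mono this).trans_lt (by simp [Real.volume_Icc])).ne
  have h1 : volume ((1 / 4 : ℝ) • range K) = ENNReal.ofReal (1 / 4) * volume (range K) := by
    rw [Measure.addHaar_smul]
    congr 2
    simp
  have h2 : volume (range K) ≤
      ENNReal.ofReal (1 / 4) * volume (range K) + ENNReal.ofReal (1 / 4) * volume (range K) := by
    calc volume (range K) ≤ volume ((1 / 4 : ℝ) • range K ∪ ((1 : ℝ) +ᵥ (1 / 4 : ℝ) • range K)) :=
          measure_mono hsub
      _ ≤ volume ((1 / 4 : ℝ) • range K) + volume ((1 : ℝ) +ᵥ (1 / 4 : ℝ) • range K) :=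
          measure_union_le _ _
      _ = _ := by rw [measure_vadd, h1]
  lift volume (range K) to NNReal using hfin with v hv
  rw [show ENNReal.ofReal (1 / 4) = ((1 / 4 : NNReal) : ENNReal) by
    rw [ENNReal.ofReal]; congr 1; ext; simp] at h2
  norm_cast at h2 ⊢
  have h3 : (v : ℝ) ≤ 1 / 4 * v + 1 / 4 * v := by exact_mod_cast h2
  have h4 : (0 : ℝ) ≤ v := v.2
  have : (v : ℝ) = 0 := by linarith
  exact_mod_cast this

/-- an enumeration of the rationals -/
noncomputable def qq : ℕ → ℚ := (exists_surjective_nat ℚ).choose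

theorem qq_surj : Function.Surjective qq := (exists_surjective_nat ℚ).choose_spec

open Classical in
/-- the cut of a real number -/
noncomputable def eps (y : ℝ) (n : ℕ) : Bool := decide ((qq n : ℝ) < y)

theorem eps_injective : Function.Injective eps := by
  intro y z h
  by_contra hne
  wlog hlt : y < z generalizing y z
  · exact this h.symm (Ne.symm hne) (lt_of_le_of_ne (not_lt.mp hlt) (Ne.symm hne))
  obtain ⟨q, hq1, hq2⟩ := exists_rat_btwn hlt
  obtain ⟨n, hn⟩ := qq_surj q
  have := congrFun h n
  simp only [eps, hn, decide_eq_decide] at this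
  exact absurd (this.mpr hq2) (not_lt.mpr hq1.le)

theorem measurable_Keps : Measurable fun y => K (inter (eps y) fun _ => false) := by
  apply Monotone.measurable
  intro y z hyz
  apply cantorFunction_le (by norm_num) (by norm_num)
  intro n
  simp only [inter]
  split_ifs with h
  · simp only [eps, decide_eq_true_eq]
    intro h'
    exact h'.trans_le hyz
  · simp

/-- an integrable injective function on the line -/
noncomputable def psi (x : ℝ) : ℝ := if 0 ≤ x then (1 + x ^ 2)⁻¹ else -(1 + x ^ 2)⁻¹

theorem psi_abs (x : ℝ) : |psi x| = (1 + x ^ 2)⁻¹ := by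
  have : 0 < (1 + x ^ 2)⁻¹ := by positivity
  unfold psi
  split_ifs
  · exact abs_of_pos this
  · rw [abs_neg]; exact abs_of_pos this

theorem psi_le (x : ℝ) : |psi x| ≤ 1 := by
  rw [psi_abs]
  apply inv_le_one_of_one_le₀
  nlinarith [sq_nonneg x]

theorem psi_injective : Function.Injective psi := by
  intro x y h
  have hx : 0 < (1 + x ^ 2)⁻¹ := by positivity
  have hy : 0 < (1 + y ^ 2)⁻¹ := by positivity
  unfold psi at h
  split_ifs at h with h1 h2 h2
  · have : x ^ 2 = y ^ 2 := by
      have := inv_injective h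
      linarith
    nlinarith [sq_nonneg (x - y)]
  · linarith
  · linarith
  · have : x ^ 2 = y ^ 2 := by
      have := inv_injective (neg_injective h)
      linarith
    nlinarith [sq_nonneg (x - y)]

theorem integrable_psi : Integrable psi := by
  refine Integrable.mono' (g := fun x => (1 + x ^ 2)⁻¹) integrable_inv_one_add_sq ?_ ?_
  · apply Measurable.aestronglyMeasurable
    unfold psi
    apply Measurable.ite measurableSet_Ici <;> fun_prop
  · exact Eventually.of_forall fun x => by rw [Real.norm_eq_abs, psi_abs]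

theorem exists_dec : ∃ dec : (ℕ → Bool) → (ℚ → ℝ), Function.Surjective dec := by
  have h : #(ℕ → Bool) = #(ℚ → ℝ) := by
    simp [mk_real]
  obtain ⟨e⟩ := Cardinal.eq.mp h
  exact ⟨e, e.surjective⟩

/-- a decoding map -/
noncomputable def dec : (ℕ → Bool) → (ℚ → ℝ) := exists_dec.choose

theorem dec_surj : Function.Surjective dec := exists_dec.choose_spec

/-- the universal function -/
noncomputable def H (s : ℕ → Bool) (x : ℝ) : ℝ :=
  limUnder (comap (Rat.cast : ℚ → ℝ) (𝓝 x)) (dec s)

theorem exists_code {O : Set ℝ} (hO : IsOpen O) {F : ℝ → ℝ} (hF : ContinuousOn F O) :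
    ∃ s, ∀ x ∈ O, H s x = F x := by
  obtain ⟨s, hs⟩ := dec_surj fun q => F q
  refine ⟨s, fun x hx => ?_⟩
  unfold H
  rw [hs]
  have : NeBot (comap (Rat.cast : ℚ → ℝ) (𝓝 x)) :=
    Rat.isDenseEmbedding_coe_real.isDenseInducing.comap_nhds_neBot x
  apply Tendsto.limUnder_eq
  have h1 : Tendsto F (𝓝 x) (𝓝 (F x)) := hF.continuousAt (hO.mem_nhds hx)
  exact h1.comp tendsto_comap

theorem isOpen_I (a b : EReal) : IsOpen (I a b) := by
  have : I a b = (fun x : ℝ => (x : EReal)) ⁻¹' Ioo a b := rfl
  rw [this]
  exact isOpen_Ioo.preimage continuous_coe_real_ereal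

theorem exists_sub {a b : EReal} (hab : a < b) : ∃ c d : ℝ, c < d ∧ Icc c d ⊆ I a b := by
  obtain ⟨x, hx1, hx2⟩ := EReal.lt_iff_exists_real_btwn.mp hab
  obtain ⟨ε, hε, hsub⟩ := Metric.isOpen_iff.mp (isOpen_I a b) x ⟨hx1, hx2⟩
  refine ⟨x - ε / 2, x + ε / 2, by linarith, fun y hy => hsub ?_⟩
  rw [Metric.mem_ball, Real.dist_eq, abs_lt]
  constructor <;> linarith [hy.1, hy.2]

theorem continuousOn_indef {α β : EReal} {g : ℝ →. ℝ} (hg : IntegrableOn (total g) (I α β)) :
    ContinuousOn (indef α g) (I α β) := by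
  set G : ℝ → ℝ := indicator (I α β) (total g) with hG
  have hint : Integrable G := (integrable_indicator_iff (isOpen_I α β).measurableSet).mpr hg
  have h1 : ∀ x ∈ I α β, indef α g x = (∫ t in Iic (0 : ℝ), G t) + ∫ t in (0 : ℝ)..x, G t := by
    intro x hx
    have e1 : {t : ℝ | α < (t : EReal) ∧ t < x} = Iio x ∩ I α β := by
      ext t
      constructor
      · rintro ⟨h1, h2⟩
        refine ⟨h2, h1, lt_trans ?_ hx.2⟩
        exact_mod_cast h2
      · rintro ⟨h1, h2⟩
        exact ⟨h2.1, h1⟩
    have e2 : indef α g x = ∫ t in Iio x, G t := by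
      rw [indef, e1, hG, setIntegral_indicator (isOpen_I α β).measurableSet]
    rw [e2, ← integral_Iic_eq_integral_Iio,
      ← intervalIntegral.integral_Iic_sub_Iic hint.integrableOn hint.integrableOn]
    ring
  have h2 : Continuous fun x => (∫ t in Iic (0 : ℝ), G t) + ∫ t in (0 : ℝ)..x, G t :=
    continuous_const.add (intervalIntegral.continuous_primitive
      (fun _ _ => hint.intervalIntegrable) 0)
  exact h2.continuousOn.congr h1

/-- the second function -/
noncomputable def kk (c d : ℝ) (y : ℝ) : ℝ :=
  indicator (Ioo c d) (fun y => K (inter (eps y) fun _ => false)) y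

theorem integrable_kk (c d : ℝ) : Integrable (kk c d) := by
  unfold kk
  rw [integrable_indicator_iff measurableSet_Ioo]
  have hfin : volume (Ioo c d) ≠ ⊤ := by simp [Real.volume_Ioo]
  refine Measure.integrableOn_of_bounded (M := 4 / 3) hfin
    measurable_Keps.aestronglyMeasurable ?_
  refine Eventually.of_forall fun y => ?_
  rw [Real.norm_eq_abs, abs_of_nonneg (K_nonneg _)]
  exact K_le _

/-- the coding map -/
noncomputable def G (m r : ℝ) (p : ℝ × (ℕ → Bool)) : ℝ :=
  m + r * K (inter (eps (m + r * psi p.1)) p.2)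

theorem G_injective {m r : ℝ} (hr : r ≠ 0) : Function.Injective (G m r) := by
  rintro ⟨x, s⟩ ⟨y, t⟩ h
  have h1 : K (inter (eps (m + r * psi x)) s) = K (inter (eps (m + r * psi y)) t) := by
    have : r * K (inter (eps (m + r * psi x)) s) = r * K (inter (eps (m + r * psi y)) t) := by
      simpa [G] using h
    exact mul_left_cancel₀ hr this
  obtain ⟨h2, h3⟩ := inter_injective (K_injective h1)
  have h4 := eps_injective h2
  have h5 : psi x = psi y := by
    have : r * psi x = r * psi y := by linarith
    exact mul_left_cancel₀ hr this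
  rw [psi_injective h5, h3]

/-- the third function -/
noncomputable def DD (m r : ℝ) : ℝ → ℝ :=
  Function.extend (G m r) (fun p => H p.2 p.1) 0

theorem DD_apply {m r : ℝ} (hr : r ≠ 0) (x : ℝ) (s : ℕ → Bool) : DD m r (G m r (x, s)) = H s x :=
  (G_injective hr).extend_apply _ _ (x, s)

theorem integrable_DD (m r : ℝ) : Integrable (DD m r) := by
  have h0 : DD m r =ᵐ[volume] 0 := by
    have hnull : volume (range (G m r)) = 0 := by
      have hsub : range (G m r) ⊆ (fun t => m + r * t) '' range K := by
        rintro _ ⟨p, rfl⟩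
        exact ⟨_, mem_range_self _, rfl⟩
      refine measure_mono_null hsub ?_
      apply addHaar_image_eq_zero_of_differentiableOn_of_addHaar_eq_zero
      · fun_prop
      · exact volume_range_K
    rw [Filter.EventuallyEq, ae_iff]
    refine measure_mono_null (fun z hz => ?_) hnull
    by_contra hne
    apply hz
    exact Function.extend_apply' _ _ z (fun ⟨p, hp⟩ => hne ⟨p, hp⟩)
  exact (integrable_zero ℝ ℝ volume).congr h0.symm

theorem mem_res {a b : EReal} (f : ℝ → ℝ) {x : ℝ} (hx : x ∈ I a b) :
    f x ∈ PFun.res f (I a b) x := by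
  rw [PFun.mem_res]
  exact ⟨hx, rfl⟩

theorem mem_comp {h k : ℝ →. ℝ} {x y z : ℝ} (h1 : y ∈ k x) (h2 : z ∈ h y) : z ∈ (h.comp k) x :=
  Part.mem_bind h1 h2

/-- affine combinations -/
theorem mem_aff {a b : EReal} (p q : ℝ) (u : ℝ →. ℝ) {x y : ℝ} (hx : x ∈ I a b) (hy : y ∈ u x) :
    p + q * y ∈ ratComb a b (MvPolynomial.C p + MvPolynomial.C q * MvPolynomial.X 0) 1
      (fun _ : Fin 1 => u) x := by
  obtain ⟨hd, he⟩ := hy
  refine ⟨⟨hx, fun _ => hd, by simp⟩, ?_⟩
  simp [ratComb, he]

/-- On every interval `(a, b)`, `-∞ ≤ a < b ≤ ∞`, there are three functions, finite and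
Lebesgue integrable on `(a, b)`, such that the indefinite integral of every member of `R` that is
defined almost everywhere and summable on an interval `(α, β) ⊆ (a, b)` belongs to `R`. -/
theorem result (a b : EReal) (hab : a < b) :
    ∃ f : Fin 3 → ℝ → ℝ, (∀ i, IntegrableOn (f i) (I a b)) ∧
      ∀ g : ℝ →. ℝ, InR a b f g → ∀ α β : EReal, α < β → I α β ⊆ I a b →
        (∀ᵐ t ∂(volume.restrict (I α β)), (g t).Dom) → IntegrableOn (total g) (I α β) →
        ∃ h : ℝ →. ℝ, InR a b f h ∧ ∀ x ∈ I α β, indef α g x ∈ h x := by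
  obtain ⟨c, d, hcd, hsub⟩ := exists_sub hab
  set m : ℝ := (c + d) / 2 with hm
  set r : ℝ := (d - c) / 4 with hr
  have hr0 : 0 < r := by rw [hr]; linarith
  refine ⟨![psi, kk c d, DD m r], ?_, ?_⟩
  · intro i
    fin_cases i
    · exact integrable_psi.integrableOn
    · exact (integrable_kk c d).integrableOn
    · exact (integrable_DD m r).integrableOn
  intro g _ α β _ hαβ _ hg
  obtain ⟨s, hs⟩ := exists_code (isOpen_I α β) (continuousOn_indef hg)
  set f : Fin 3 → ℝ → ℝ := ![psi, kk c d, DD m r] with hf
  set cs : ℝ := K (inter (fun _ => false) s) with hcs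
  let u0 : ℝ →. ℝ := PFun.res (f 0) (I a b)
  let u1 : ℝ →. ℝ := ratComb a b (MvPolynomial.C m + MvPolynomial.C r * MvPolynomial.X 0) 1
      (fun _ : Fin 1 => u0)
  let u2 : ℝ →. ℝ := (PFun.res (f 1) (I a b)).comp u1
  let u3 : ℝ →. ℝ := ratComb a b
      (MvPolynomial.C (m + r * cs) + MvPolynomial.C r * MvPolynomial.X 0) 1
      (fun _ : Fin 1 => u2)
  let u4 : ℝ →. ℝ := (PFun.res (f 2) (I a b)).comp u3
  have r0 : InR a b f u0 := InR.gen 0
  have r1 : InR a b f u1 := InR.rat _ _ _ fun _ => r0
  have r2 : InR a b f u2 := InR.comp _ _ (InR.gen 1) r1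
  have r3 : InR a b f u3 := InR.rat _ _ _ fun _ => r2
  have r4 : InR a b f u4 := InR.comp _ _ (InR.gen 2) r3
  refine ⟨u4, r4, fun x hx => ?_⟩
  have hx' : x ∈ I a b := hαβ hx
  have hψ := psi_le x
  rw [abs_le] at hψ
  set y : ℝ := m + r * psi x with hy
  have hycd : y ∈ Ioo c d := by
    constructor
    · rw [hy, hm, hr]; nlinarith
    · rw [hy, hm, hr]; nlinarith
  have m1 : y ∈ u1 x := mem_aff m r u0 hx' (mem_res (f 0) hx')
  have m2 : K (inter (eps y) fun _ => false) ∈ u2 x := by
    refine mem_comp m1 ?_
    have e : f 1 y = K (inter (eps y) fun _ => false) := by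
      simp [hf, kk, hycd]
    rw [← e]
    exact mem_res (f 1) (hsub ⟨hycd.1.le, hycd.2.le⟩)
  have m3 : G m r (x, s) ∈ u3 x := by
    have h := mem_aff (m + r * cs) r u2 hx' m2
    have e : m + r * cs + r * K (inter (eps y) fun _ => false) = G m r (x, s) := by
      rw [G, K_inter (eps (m + r * psi x)) s]
      ring
    rw [e] at h
    exact h
  have hG : G m r (x, s) ∈ Ioo c d := by
    have k0 := K_nonneg (inter (eps y) s)
    have k1 := K_le (inter (eps y) s)
    constructor
    · rw [G, ← hy]
      have : 0 ≤ r * K (inter (eps y) s) := by positivity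
      have : c < m := by rw [hm]; linarith
      linarith
    · rw [G, ← hy]
      have : r * K (inter (eps y) s) ≤ r * (4 / 3) := mul_le_mul_of_nonneg_left k1 hr0.le
      have : m + r * (4 / 3) < d := by rw [hm, hr]; linarith
      linarith
  rw [← hs x hx, ← DD_apply hr0.ne' x s]
  exact mem_comp m3 (mem_res (f 2) (hsub ⟨hG.1.le, hG.2.le⟩))

end Pool.Agent.Results.MP_4d4a97_an.MazurUlam
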